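import Pool.Agent.Work.MP_1ea053_nt.MER
import Pool.Agent.Work.SW.PNT

/-!
# Mertens' product with absolute error o(1) (block M3, helper72)
-/

set_option autoImplicit false

namespace Pool.M3

open Finset Filter Chebyshev
open scoped Topology

/-- theta -/
noncomputable def th (n : ℕ) : ℝ := ∑ p ∈ (Ioc 0 n).filter Nat.Prime, Real.log p

/-- the sum of the reciprocals -/
noncomputable def S (n : ℕ) : ℝ := ∑ p ∈ (Ioc 0 n).filter Nat.Prime, 1 / (p : ℝ)

/-- the weight -/
noncomputable def g (n : ℕ) : ℝ := 1 / (n * Real.log n)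

theorem th_eq (n : ℕ) : th n = θ (n : ℝ) := by
  rw [Chebyshev.theta, Nat.floor_natCast, th]

theorem filter_succ (n : ℕ) : (Ioc 0 (n + 1)).filter Nat.Prime =
    if (n + 1).Prime then insert (n + 1) ((Ioc 0 n).filter Nat.Prime)
      else (Ioc 0 n).filter Nat.Prime := by
  rw [← Finset.insert_Ioc_right_eq_Ioc_add_one (Nat.zero_le n), Finset.filter_insert]

theorem notMem (n : ℕ) : n + 1 ∉ (Ioc 0 n).filter Nat.Prime := by
  simp

theorem th_succ (n : ℕ) : th (n + 1) = th n + if (n + 1).Prime then Real.log ((n + 1 : ℕ) : ℝ) else 0 := by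
  unfold th
  rw [filter_succ]
  split_ifs with h
  · rw [Finset.sum_insert (notMem n)]; ring
  · ring

theorem S_succ (n : ℕ) : S (n + 1) = S n + if (n + 1).Prime then 1 / (((n + 1 : ℕ) : ℝ)) else 0 := by
  unfold S
  rw [filter_succ]
  split_ifs with h
  · rw [Finset.sum_insert (notMem n)]; ring
  · ring

theorem E_bound : ∃ C : ℝ, 0 < C ∧ ∀ n : ℕ, 2 ≤ n →
    |th n - n| ≤ C * (n / Real.log n ^ 3) := by
  obtain ⟨C, hC, hpnt⟩ := Pool.Agent.SW.pnt 3
  obtain ⟨D, hD⟩ := psi_sub_theta_le_mul_sqrt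
  refine ⟨C + 216 * |D|, by positivity, fun n hn => ?_⟩
  have hn2 : (2 : ℝ) ≤ n := by exact_mod_cast hn
  have hn0 : (0 : ℝ) < n := by linarith
  have hl : 0 < Real.log n := Real.log_pos (by linarith)
  have h1 := hpnt n hn2
  rw [Nat.floor_natCast] at h1
  have h2 : ψ (n : ℝ) = ∑ k ∈ Ioc 0 n, ArithmeticFunction.vonMangoldt k := by
    rw [Chebyshev.psi, Nat.floor_natCast]
  have h3 := hD (n : ℝ)
  have h4 : θ (n : ℝ) ≤ ψ (n : ℝ) := Chebyshev.theta_le_psi _
  have h5 : Real.sqrt n ≤ 216 * (n / Real.log n ^ 3) := by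
    have h6 : Real.log n ≤ (n : ℝ) ^ (1 / 6 : ℝ) / (1 / 6) :=
      Real.log_le_rpow_div hn0.le (by norm_num)
    have h7 : Real.log n ^ 3 ≤ 216 * Real.sqrt n := by
      calc Real.log n ^ 3 ≤ ((n : ℝ) ^ (1 / 6 : ℝ) / (1 / 6)) ^ 3 := by gcongr
        _ = 216 * ((n : ℝ) ^ (1 / 6 : ℝ)) ^ 3 := by ring
        _ = 216 * Real.sqrt n := by
          rw [← Real.rpow_natCast ((n : ℝ) ^ (1 / 6 : ℝ)) 3, ← Real.rpow_mul hn0.le,
            Real.sqrt_eq_rpow]
          norm_num
    rw [← mul_div_assoc, le_div_iff₀ (by positivity)]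
    have h8 : Real.sqrt n * Real.sqrt n = n := Real.mul_self_sqrt hn0.le
    calc Real.sqrt n * Real.log n ^ 3 ≤ Real.sqrt n * (216 * Real.sqrt n) := by gcongr
      _ = 216 * (Real.sqrt n * Real.sqrt n) := by ring
      _ = 216 * n := by rw [h8]
  rw [th_eq]
  have h9 : |θ (n : ℝ) - n| ≤ |ψ (n : ℝ) - n| + |D| * Real.sqrt n := by
    have h10 : D * Real.sqrt n ≤ |D| * Real.sqrt n := by gcongr; exact le_abs_self D
    rw [abs_le]
    have h11 := neg_abs_le (ψ (n : ℝ) - n)
    have h12 := le_abs_self (ψ (n : ℝ) - n)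
    constructor <;> linarith
  rw [h2] at h9
  calc |θ (n : ℝ) - n| ≤ _ := h9
    _ ≤ C * (n / Real.log n ^ 3) + |D| * (216 * (n / Real.log n ^ 3)) := by gcongr
    _ = (C + 216 * |D|) * (n / Real.log n ^ 3) := by ring

theorem log_succ_sub (n : ℕ) (hn : 1 ≤ n) :
    1 / ((n : ℝ) + 1) ≤ Real.log ((n + 1 : ℕ) : ℝ) - Real.log n ∧
      Real.log ((n + 1 : ℕ) : ℝ) - Real.log n ≤ 1 / n := by
  have hn0 : (0 : ℝ) < n := by exact_mod_cast hn
  push_cast
  constructor
  · have h := Real.one_sub_inv_le_log_of_pos (x := ((n : ℝ) + 1) / n) (by positivity)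
    rw [Real.log_div (by positivity) hn0.ne'] at h
    have e : 1 - (((n : ℝ) + 1) / n)⁻¹ = 1 / (n + 1) := by field_simp; ring
    rwa [e] at h
  · have h := Real.log_le_sub_one_of_pos (x := ((n : ℝ) + 1) / n) (by positivity)
    rw [Real.log_div (by positivity) hn0.ne'] at h
    have e : ((n : ℝ) + 1) / n - 1 = 1 / n := by field_simp; ring
    rwa [e] at h

theorem loglog_succ (n : ℕ) (hn : 2 ≤ n) :
    Real.log (Real.log ((n + 1 : ℕ) : ℝ)) - Real.log (Real.log n) ≤ g n := by
  have hn2 : (2 : ℝ) ≤ n := by exact_mod_cast hn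
  have hl : 0 < Real.log n := Real.log_pos (by linarith)
  have h1 := (log_succ_sub n (by omega)).2
  have h0 := (log_succ_sub n (by omega)).1
  have hl1 : 0 < Real.log ((n + 1 : ℕ) : ℝ) := by
    have : 0 < 1 / ((n : ℝ) + 1) := by positivity
    linarith
  have h2 := Real.log_le_sub_one_of_pos (x := Real.log ((n + 1 : ℕ) : ℝ) / Real.log n)
    (by positivity)
  rw [Real.log_div hl1.ne' hl.ne'] at h2
  refine h2.trans ?_
  unfold g
  rw [div_sub_one hl.ne', div_le_div_iff₀ hl (by positivity)]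
  have h3 : (Real.log ((n + 1 : ℕ) : ℝ) - Real.log n) * n ≤ 1 := by
    rw [le_div_iff₀ (by linarith)] at h1
    exact h1
  calc (Real.log ((n + 1 : ℕ) : ℝ) - Real.log n) * (n * Real.log n)
      = ((Real.log ((n + 1 : ℕ) : ℝ) - Real.log n) * n) * Real.log n := by ring
    _ ≤ 1 * Real.log n := by gcongr

theorem g_sub (n : ℕ) (hn : 3 ≤ n) : 0 ≤ g n - g (n + 1) ∧ g n - g (n + 1) ≤ 2 / (n ^ 2 * Real.log n) := by
  have hn3 : (3 : ℝ) ≤ n := by exact_mod_cast hn
  have hn0 : (0 : ℝ) < n := by linarith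
  have hl : 1 ≤ Real.log n := by
    have h := Real.exp_one_lt_d9
    rw [Real.le_log_iff_exp_le hn0]
    linarith
  obtain ⟨h0, h1⟩ := log_succ_sub n (by omega)
  set L1 := Real.log ((n + 1 : ℕ) : ℝ) with hL1
  set L := Real.log (n : ℝ) with hL
  have h00 : 0 < 1 / ((n : ℝ) + 1) := by positivity
  have hL1' : L ≤ L1 := by linarith
  have hL10 : 0 < L1 := by linarith
  have hL0 : 0 < L := by linarith
  have h3 : (L1 - L) * n ≤ 1 := by
    rw [le_div_iff₀ hn0] at h1
    exact h1
  have e : g n - g (n + 1) = (L1 + (L1 - L) * n) / (n * L * ((n + 1) * L1)) := by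
    unfold g
    rw [← hL1, ← hL]
    push_cast
    field_simp
    ring
  constructor
  · rw [e]
    have : 0 ≤ L1 - L := by linarith
    positivity
  · rw [e, div_le_div_iff₀ (by positivity) (by positivity)]
    have h4 : L1 + (L1 - L) * n ≤ 2 * L1 := by linarith
    calc (L1 + (L1 - L) * n) * (n ^ 2 * L) ≤ (2 * L1) * (n ^ 2 * L) := by gcongr
      _ = 2 * (n * L * (n * L1)) := by ring
      _ ≤ 2 * (n * L * ((n + 1) * L1)) := by gcongr; linarith

theorem inv_log_sub (n : ℕ) (hn : 3 ≤ n) :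
    1 / (4 * n * Real.log n ^ 2) ≤ 1 / Real.log n - 1 / Real.log ((n + 1 : ℕ) : ℝ) := by
  have hn3 : (3 : ℝ) ≤ n := by exact_mod_cast hn
  have hn0 : (0 : ℝ) < n := by linarith
  have hl : 1 ≤ Real.log n := by
    have h := Real.exp_one_lt_d9
    rw [Real.le_log_iff_exp_le hn0]
    linarith
  obtain ⟨h0, h1⟩ := log_succ_sub n (by omega)
  set L1 := Real.log ((n + 1 : ℕ) : ℝ) with hL1
  set L := Real.log (n : ℝ) with hL
  have h00 : 0 < 1 / ((n : ℝ) + 1) := by positivity
  have hL10 : 0 < L1 := by linarith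
  have hL0 : 0 < L := by linarith
  have h5 : 1 / (n : ℝ) ≤ 1 := by rw [div_le_one hn0]; linarith
  have h4 : L1 ≤ 2 * L := by linarith
  have e : 1 / L - 1 / L1 = (L1 - L) / (L * L1) := by field_simp
  rw [e]
  calc 1 / (4 * n * L ^ 2) = (1 / (2 * n)) / (L * (2 * L)) := by field_simp; ring
    _ ≤ (1 / ((n : ℝ) + 1)) / (L * L1) := by
      gcongr
      linarith
    _ ≤ (L1 - L) / (L * L1) := by gcongr

theorem spl : ∃ K : ℝ, 0 < K ∧ ∀ w w' : ℕ, 3 ≤ w → w ≤ w' →
    Real.log (Real.log w') - Real.log (Real.log w) - K / Real.log w ^ 2 ≤ S w' - S w := by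
  obtain ⟨C, hC, hE⟩ := E_bound
  refine ⟨10 * C + 1, by positivity, fun w w' hw hww => ?_⟩
  have hw3 : (3 : ℝ) ≤ w := by exact_mod_cast hw
  have hw0 : (0 : ℝ) < w := by linarith
  have hl1 : ∀ n : ℕ, w ≤ n → 1 ≤ Real.log n ∧ Real.log w ≤ Real.log n := by
    intro n hn
    have hn3 : (w : ℝ) ≤ n := by exact_mod_cast hn
    have h := Real.exp_one_lt_d9
    refine ⟨?_, Real.log_le_log hw0 hn3⟩
    rw [Real.le_log_iff_exp_le (by linarith)]
    linarith
  set L := Real.log (w : ℝ) with hL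
  have hLL : 1 ≤ L := (hl1 w le_rfl).1
  have hL0 : 0 < L := by linarith
  set Ψ : ℕ → ℝ := fun n => S n - (th n - n) * g n - Real.log (Real.log n) - g n -
    8 * C / L ^ 2 * (1 / Real.log n) with hΨ
  have hEg : ∀ n : ℕ, w ≤ n → |(th n - n) * g n| ≤ C / L ^ 2 := by
    intro n hn
    obtain ⟨h1, h2⟩ := hl1 n hn
    have hn0 : (0 : ℝ) < n := by
      have : (w : ℝ) ≤ n := by exact_mod_cast hn
      linarith
    have h3 := hE n (by omega)
    have hg : 0 ≤ g n := by unfold g; positivity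
    rw [abs_mul, abs_of_nonneg hg]
    calc |th n - n| * g n ≤ C * (n / Real.log n ^ 3) * g n := by gcongr
      _ = C / Real.log n ^ 4 := by unfold g; field_simp
      _ ≤ C / L ^ 2 := by
        apply div_le_div_of_nonneg_left hC.le (by positivity)
        calc L ^ 2 ≤ Real.log n ^ 2 := by gcongr
          _ ≤ Real.log n ^ 4 := pow_le_pow_right₀ h1 (by norm_num)
  have hmono : ∀ n : ℕ, w ≤ n → Ψ w ≤ Ψ n := by
    intro n hn
    induction n, hn using Nat.le_induction with
    | base => exact le_rfl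
    | succ n hn ih =>
      refine ih.trans ?_
      obtain ⟨h1, h2⟩ := hl1 n hn
      have hn3 : 3 ≤ n := by omega
      have hn3' : (3 : ℝ) ≤ n := by exact_mod_cast hn3
      have hn0 : (0 : ℝ) < n := by linarith
      have hlog1 : 0 < Real.log ((n + 1 : ℕ) : ℝ) := Real.log_pos (by push_cast; linarith)
      have a1 := loglog_succ n (by omega)
      obtain ⟨a2, a3⟩ := g_sub n hn3
      have a4 := inv_log_sub n hn3
      have a5 := hE n (by omega)
      -- the jump
      have a6 : S (n + 1) - (th (n + 1) - ((n + 1 : ℕ) : ℝ)) * g (n + 1) -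
          (S n - (th n - n) * g n) = g (n + 1) + (th n - n) * (g n - g (n + 1)) := by
        rw [S_succ, th_succ]
        have a7 : g (n + 1) * Real.log ((n + 1 : ℕ) : ℝ) = 1 / (((n + 1 : ℕ) : ℝ)) := by
          unfold g
          have : (((n + 1 : ℕ) : ℝ)) ≠ 0 := by positivity
          field_simp
        split_ifs with hp
        · rw [← a7]
          push_cast
          ring
        · push_cast
          ring
      have a8 : -(8 * C / L ^ 2 * (1 / Real.log n - 1 / Real.log ((n + 1 : ℕ) : ℝ))) ≤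
          (th n - n) * (g n - g (n + 1)) := by
        have b1 : |(th n - n) * (g n - g (n + 1))| ≤
            8 * C / L ^ 2 * (1 / Real.log n - 1 / Real.log ((n + 1 : ℕ) : ℝ)) := by
          rw [abs_mul, abs_of_nonneg a2]
          calc |th n - n| * (g n - g (n + 1))
              ≤ C * (n / Real.log n ^ 3) * (2 / (n ^ 2 * Real.log n)) := by gcongr
            _ = 8 * C / Real.log n ^ 2 * (1 / (4 * n * Real.log n ^ 2)) := by
              field_simp
              ring
            _ ≤ 8 * C / L ^ 2 * (1 / (4 * n * Real.log n ^ 2)) := by gcongr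
            _ ≤ _ := by gcongr
        have b2 := neg_abs_le ((th n - n) * (g n - g (n + 1)))
        linarith
      simp only [hΨ]
      have a9 : 8 * C / L ^ 2 * (1 / Real.log n - 1 / Real.log ((n + 1 : ℕ) : ℝ)) =
        8 * C / L ^ 2 * (1 / Real.log n) - 8 * C / L ^ 2 * (1 / Real.log ((n + 1 : ℕ) : ℝ)) := by
        ring
      linarith
  have hfin := hmono w' hww
  simp only [hΨ] at hfin
  have c1 := hEg w le_rfl
  have c2 := hEg w' hww
  rw [abs_le] at c1 c2
  have hg' : 0 ≤ g w' := by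
    have := (hl1 w' hww).1
    unfold g; positivity
  have hgw : g w ≤ 1 / L ^ 2 := by
    unfold g
    rw [← hL]
    apply div_le_div_of_nonneg_left zero_le_one (by positivity)
    have : L ≤ w := by
      have := Real.log_le_sub_one_of_pos hw0
      linarith
    calc L ^ 2 = L * L := by ring
      _ ≤ w * L := by gcongr
  have c3 : 0 ≤ 8 * C / L ^ 2 * (1 / Real.log w') := by
    have := (hl1 w' hww).1
    positivity
  have c4 : 8 * C / L ^ 2 * (1 / L) ≤ 8 * C / L ^ 2 := by
    have : 1 / L ≤ 1 := by rw [div_le_one hL0]; exact hLL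
    calc 8 * C / L ^ 2 * (1 / L) ≤ 8 * C / L ^ 2 * 1 := by gcongr
      _ = _ := by ring
  have c5 : (10 * C + 1) / L ^ 2 = C / L ^ 2 + C / L ^ 2 + 1 / L ^ 2 + 8 * C / L ^ 2 := by ring
  rw [c5]
  have c6 : ∀ a b : ℝ, (a - b) * 1 = a - b := fun a b => by ring
  linarith [c1.1, c1.2, c2.1, c2.2]

/-- the product -/
noncomputable def P (w : ℕ) : ℝ := ∏ p ∈ (Ioc 0 w).filter Nat.Prime, (1 - 1 / (p : ℝ))⁻¹

theorem fac_pos {p : ℕ} (hp : p.Prime) : 0 < 1 - 1 / (p : ℝ) := by
  have h2 : (1 : ℝ) < p := by exact_mod_cast hp.one_lt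
  have : 1 / (p : ℝ) < 1 := by rw [div_lt_one (by linarith)]; exact h2
  linarith

theorem P_pos (w : ℕ) : 0 < P w :=
  Finset.prod_pos fun p hp => inv_pos.mpr (fac_pos (Finset.mem_filter.mp hp).2)

theorem P_tendsto : Tendsto (fun w : ℕ => P w / Real.log w) atTop
    (𝓝 (Real.exp Real.eulerMascheroniConstant)) := by
  have h := Pool.Agent.GapTwoMER.tendsto_Vz
  rw [Pool.Agent.Work.MP_b0c12c_nt.pp_one_eq] at h
  have h2 := h.inv₀ (Real.exp_pos _).ne'
  rw [← Real.exp_neg, neg_neg] at h2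
  refine h2.congr fun w => ?_
  unfold Pool.Agent.Work.MP_b0c12c_nt.Vz P
  rw [mul_inv, Finset.prod_inv_distrib, div_eq_mul_inv]
  rfl

theorem P_mul {w w' : ℕ} (h : w ≤ w') : P w * Real.exp (S w' - S w) ≤ P w' := by
  have hsub : (Ioc 0 w).filter Nat.Prime ⊆ (Ioc 0 w').filter Nat.Prime :=
    Finset.filter_subset_filter _ (Finset.Ioc_subset_Ioc_right h)
  have e1 : P w' = (∏ p ∈ (Ioc 0 w').filter Nat.Prime \ (Ioc 0 w).filter Nat.Prime,
      (1 - 1 / (p : ℝ))⁻¹) * P w := by
    unfold P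
    rw [Finset.prod_sdiff hsub]
  have e2 : S w' - S w = ∑ p ∈ (Ioc 0 w').filter Nat.Prime \ (Ioc 0 w).filter Nat.Prime,
      1 / (p : ℝ) := by
    unfold S
    rw [← Finset.sum_sdiff hsub]
    ring
  rw [e1, e2, Real.exp_sum, mul_comm]
  apply mul_le_mul_of_nonneg_right _ (P_pos w).le
  apply Finset.prod_le_prod
  · intro p _; exact (Real.exp_pos _).le
  · intro p hp
    have hp' := (Finset.mem_filter.mp (Finset.mem_sdiff.mp hp).1).2
    have h1 := Real.add_one_le_exp (-(1 / (p : ℝ)))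
    rw [Real.exp_neg] at h1
    have h2 := fac_pos hp'
    rw [← one_div, le_div_iff₀ h2]
    have h3 : Real.exp (1 / (p : ℝ)) * (1 - 1 / (p : ℝ)) ≤
        Real.exp (1 / (p : ℝ)) * (Real.exp (1 / (p : ℝ)))⁻¹ := by
      apply mul_le_mul_of_nonneg_left _ (Real.exp_pos _).le
      linarith
    rwa [mul_inv_cancel₀ (Real.exp_pos _).ne'] at h3

/-- Mertens' product with error o(1). -/
theorem m3 : ∀ ε : ℝ, 0 < ε → ∃ w0 : ℕ, ∀ w : ℕ, w0 ≤ w →
    ∏ p ∈ (Ioc 0 w).filter Nat.Prime, (1 - 1 / (p : ℝ))⁻¹ ≤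
      Real.exp Real.eulerMascheroniConstant * Real.log w + ε := by
  intro ε hε
  obtain ⟨K, hK, hspl⟩ := spl
  set G := Real.exp Real.eulerMascheroniConstant with hG
  have hG0 : 0 < G := Real.exp_pos _
  have key : ∀ w : ℕ, 3 ≤ w → P w ≤ G * Real.log w * Real.exp (K / Real.log w ^ 2) := by
    intro w hw
    have hw3 : (3 : ℝ) ≤ w := by exact_mod_cast hw
    have hl : 0 < Real.log w := Real.log_pos (by linarith)
    have h1 : ∀ᶠ w' : ℕ in atTop,
        P w / Real.log w * Real.exp (-(K / Real.log w ^ 2)) ≤ P w' / Real.log w' := by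
      filter_upwards [eventually_ge_atTop w] with w' hw'
      have hw'3 : (w : ℝ) ≤ w' := by exact_mod_cast hw'
      have hl' : 0 < Real.log w' := Real.log_pos (by linarith)
      have h2 := hspl w w' hw hw'
      have h3 := P_mul hw'
      have h4 : Real.exp (Real.log (Real.log w') - Real.log (Real.log w) - K / Real.log w ^ 2) ≤
          Real.exp (S w' - S w) := Real.exp_le_exp.mpr h2
      have h5 : Real.exp (Real.log (Real.log w') - Real.log (Real.log w) - K / Real.log w ^ 2) =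
          Real.log w' / Real.log w * Real.exp (-(K / Real.log w ^ 2)) := by
        rw [sub_eq_add_neg, Real.exp_add, Real.exp_sub, Real.exp_log hl', Real.exp_log hl]
      rw [h5] at h4
      rw [le_div_iff₀ hl']
      calc P w / Real.log w * Real.exp (-(K / Real.log w ^ 2)) * Real.log w'
          = P w * (Real.log w' / Real.log w * Real.exp (-(K / Real.log w ^ 2))) := by ring
        _ ≤ P w * Real.exp (S w' - S w) := by
          apply mul_le_mul_of_nonneg_left h4 (P_pos w).le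
        _ ≤ P w' := h3
    have h2 := ge_of_tendsto P_tendsto h1
    rw [Real.exp_neg] at h2
    have h3 : P w / Real.log w ≤ G * Real.exp (K / Real.log w ^ 2) := by
      have h4 := mul_le_mul_of_nonneg_right h2 (Real.exp_pos (K / Real.log w ^ 2)).le
      rwa [mul_assoc, inv_mul_cancel₀ (Real.exp_pos _).ne', mul_one] at h4
    rw [div_le_iff₀ hl] at h3
    calc P w ≤ _ := h3
      _ = _ := by ring
  have hlog : Tendsto (fun w : ℕ => Real.log (w : ℝ)) atTop atTop :=
    Real.tendsto_log_atTop.comp tendsto_natCast_atTop_atTop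
  have hev := (hlog.eventually_ge_atTop (max (K + 1) (2 * G * K / ε + 1))).and
    (eventually_ge_atTop 3)
  obtain ⟨w0, hw0⟩ := eventually_atTop.mp hev
  refine ⟨w0, fun w hw => ?_⟩
  obtain ⟨h1, h2⟩ := hw0 w hw
  have hA : K + 1 ≤ Real.log w := (le_max_left _ _).trans h1
  have hB : 2 * G * K / ε + 1 ≤ Real.log w := (le_max_right _ _).trans h1
  set L := Real.log (w : ℝ) with hL
  have hL1 : 1 ≤ L := by linarith
  have hL0 : 0 < L := by linarith
  have h3 := key w h2
  have ht : K / L ^ 2 ≤ 1 := by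
    rw [div_le_one (by positivity)]
    nlinarith
  have ht0 : 0 ≤ K / L ^ 2 := by positivity
  have hexp : Real.exp (K / L ^ 2) ≤ 1 + 2 * (K / L ^ 2) := by
    have := Real.abs_exp_sub_one_le (x := K / L ^ 2) (by rw [abs_of_nonneg ht0]; exact ht)
    rw [abs_of_nonneg ht0] at this
    have h4 := le_abs_self (Real.exp (K / L ^ 2) - 1)
    linarith
  change P w ≤ _
  calc P w ≤ G * L * Real.exp (K / L ^ 2) := h3
    _ ≤ G * L * (1 + 2 * (K / L ^ 2)) := by gcongr
    _ = G * L + 2 * G * K / L := by field_simp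
    _ ≤ G * L + ε := by
      have h5 : 2 * G * K / L ≤ ε := by
        rw [div_le_iff₀ hL0]
        have h6 : 2 * G * K / ε ≤ L := by linarith
        rw [div_le_iff₀ hε] at h6
        linarith
      linarith

end Pool.M3
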